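import Pool.Agent.H907R3.Props

set_option autoImplicit false

open Pool.Agent.H907R3

/-- There is a normal affine complex variety `X = Spec R` of dimension `6` (the cone over the
smooth quadric of dimension `5` with respect to `O(3)`) that is pre-`3`-Du Bois but not
pre-`6`-Du Bois. The Du Bois complexes are computed with a smooth affine cubical
hyperresolution. -/
theorem Pool.Agent.Results.MP_aa861c_ag.PreHalfDuBois.result :
    ∃ (R : Type) (_ : CommRing R) (_ : IsDomain R) (_ : IsIntegrallyClosed R) (_ : Algebra ℂ R)
      (_ : Algebra.FiniteType ℂ R) (D : CubicalHyperresolution R),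
      ringKrullDim R = 6 ∧ D.IsPreDuBois 3 ∧ ¬ D.IsPreDuBois 6 :=
  ⟨AA ∅, inferInstance, inferInstance, normal_R, inferInstance, finiteType_R, HH, dim_R, HH_three,
    fun h => HH_five (h 1 one_pos 5 (by norm_num))⟩
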